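import Pool.Agent.Helper74.RN.St

set_option autoImplicit false

/-!
Project RN, module CNL: comparison of two numbers of letters.
-/

namespace Pool.Agent.Helper28.RN

open Pool.Agent.Helper74 Pool.Agent.Helper74.RN
open Pool.Agent.Helper74.DI (InH sth Rch rch_refl rch_step rch_trans rch_head)

/-- The program. -/
private def dcn {α : Type} (P N : α → Bool) (e : Bool) (q : Fin 5 × Bool)
    (rd : Fin 3 → Bool × Option α) : (Fin 5 × Bool) × (Fin 3 → Fin 3) :=
  match q with
  | (0, _) => ((1, false), ![2, 1, 1])
  | (1, b) =>
    match (rd 0).2 with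
    | some a => ((1, !b), ![2, if P a then 2 else 1, if N a then 2 else 1])
    | none => ((2, false), ![1, if e && b then 2 else 1, 1])
  | (2, b) =>
    if (rd 1).1 then ((3, b), fun _ => 1)
    else if (rd 2).1 then ((4, b), fun _ => 1) else ((2, b), ![1, 0, 0])
  | (3, b) => ((3, b), fun _ => 1)
  | (4, b) => ((4, b), fun _ => 1)

variable {α : Type} (P N : α → Bool) (e : Bool)

private theorem stay3 (w : List α) (c : (Fin 5 × Bool) × (Fin 3 → ℕ))
    (h : c.1.1 = 3 ∨ c.1.1 = 4) : sth (dcn P N e) w c = c := by
  obtain ⟨⟨q, b⟩, p⟩ := c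
  simp only at h
  rcases h with rfl | rfl <;> simp [sth, dcn]

private theorem ph1 (w : List α) : ∀ (z u : List α), w = u ++ z → ∀ (b : Bool) (c d : ℕ),
    c ≤ u.length → d ≤ u.length →
    Rch (sth (dcn P N e) w) ((1, b), ![u.length + 1, c, d])
      ((1, if Even z.length then b else !b),
        ![w.length + 1, c + z.countP P, d + z.countP N]) := by
  intro z
  induction z with
  | nil =>
    intro u hw b c d hc hd
    simp only [List.append_nil] at hw
    subst hw
    simp only [List.length_nil, Even.zero, if_true, List.countP_nil, add_zero]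
    exact rch_refl _ _
  | cons x z ih =>
    intro u hw b c d hc hd
    have hx : w[u.length]? = some x := by rw [hw]; simp
    have hl : u.length < w.length := by rw [hw]; simp
    have h1 : sth (dcn P N e) w ((1, b), ![u.length + 1, c, d]) =
        ((1, !b), ![u.length + 2, c + (if P x then 1 else 0), d + (if N x then 1 else 0)]) := by
      refine Prod.ext ?_ ?_
      · simp [sth, dcn, hx]
      · funext i
        fin_cases i
        · simp [sth, dcn, hx]
          omega
        · by_cases hf : P x = true
          · simp [sth, dcn, hx, hf]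
            omega
          · simp [sth, dcn, hx, hf]
        · by_cases hf : N x = true
          · simp [sth, dcn, hx, hf]
            omega
          · simp [sth, dcn, hx, hf]
    refine rch_head _ _ _ _ h1 ?_
    have := ih (u ++ [x]) (by rw [hw]; simp) (!b) (c + if P x then 1 else 0)
      (d + if N x then 1 else 0) (by
        simp only [List.length_append, List.length_cons, List.length_nil]
        split_ifs <;> omega) (by
        simp only [List.length_append, List.length_cons, List.length_nil]
        split_ifs <;> omega)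
    simp only [List.length_append, List.length_cons, List.length_nil, zero_add] at this
    have e1 : (if Even z.length then !b else !!b) = (if Even (x :: z).length then b else !b) := by
      simp only [List.length_cons, Nat.even_add_one]
      by_cases h : Even z.length <;> simp [h]
    have e2 : c + (if P x then 1 else 0) + z.countP P = c + (x :: z).countP P := by
      rw [List.countP_cons]
      omega
    have e3 : d + (if N x then 1 else 0) + z.countP N = d + (x :: z).countP N := by
      rw [List.countP_cons]
      omega
    rw [e1, e2, e3] at this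
    exact this

private theorem ph2 (w : List α) (J : ℕ) : ∀ (A B : ℕ),
    ∃ c, Rch (sth (dcn P N e) w) ((2, false), ![J, A, B]) c ∧
      ((A ≤ B ∧ c.1.1 = 3) ∨ (B < A ∧ c.1.1 = 4)) := by
  intro A
  induction A with
  | zero =>
    intro B
    refine ⟨_, rch_step _ _ _ rfl, Or.inl ⟨Nat.zero_le _, ?_⟩⟩
    simp [sth, dcn]
  | succ A ih =>
    intro B
    cases B with
    | zero =>
      refine ⟨_, rch_step _ _ _ rfl, Or.inr ⟨Nat.succ_pos _, ?_⟩⟩
      simp [sth, dcn]
    | succ B =>
      obtain ⟨c, hc, h⟩ := ih B
      refine ⟨c, rch_head _ _ _ _ ?_ hc, ?_⟩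
      · refine Prod.ext ?_ ?_
        · simp [sth, dcn]
        · funext i
          fin_cases i <;> simp [sth, dcn]
      · rcases h with ⟨h, h'⟩ | ⟨h, h'⟩
        · exact Or.inl ⟨by omega, h'⟩
        · exact Or.inr ⟨by omega, h'⟩

theorem hCNL : StCNL := by
  intro α P N e
  refine ⟨Fin 5 × Bool, inferInstance, Fin 3, inferInstance, dcn P N e, (0, true),
    {q | q.1 = 3}, ?_⟩
  intro w
  have h0 : Rch (sth (dcn P N e) w) ((0, true), fun _ => 0) ((1, false), ![1, 0, 0]) := by
    refine rch_step _ _ _ ?_
    refine Prod.ext ?_ ?_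
    · simp [sth, dcn]
    · funext i
      fin_cases i <;> simp [sth, dcn]
  have h1 := ph1 P N e w w [] (by simp) false 0 0 (by simp) (by simp)
  simp only [List.length_nil, zero_add] at h1
  have hP : w.countP P ≤ w.length := List.countP_le_length
  have h2 : sth (dcn P N e) w ((1, if Even w.length then false else !false),
      ![w.length + 1, w.countP P, w.countP N]) =
      ((2, false), ![w.length + 1, w.countP P + (if e then w.length % 2 else 0),
        w.countP N]) := by
    have hN : w[w.length]? = none := by simp
    refine Prod.ext ?_ ?_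
    · simp [sth, dcn]
    · funext i
      by_cases hE : Even w.length
      · have hE2 : w.length % 2 = 0 := Nat.even_iff.1 hE
        fin_cases i
        · simp [sth, dcn]
        · cases e <;> simp [sth, dcn, hE, hE2]
        · simp [sth, dcn]
      · have hE2 : w.length % 2 = 1 := Nat.odd_iff.1 (Nat.not_even_iff_odd.1 hE)
        fin_cases i
        · simp [sth, dcn]
        · cases e
          · simp [sth, dcn]
          · simp [sth, dcn, hE, hE2, hP]
        · simp [sth, dcn]
  obtain ⟨c, hc, hcc⟩ := ph2 P N e w (w.length + 1)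
    (w.countP P + (if e then w.length % 2 else 0)) (w.countP N)
  have hall : Rch (sth (dcn P N e) w) ((0, true), fun _ => 0) c :=
    rch_trans _ _ _ _ h0 (rch_trans _ _ _ _ h1 (rch_head _ _ _ _ h2 hc))
  have acc : c.1.1 = 3 →
      ∃ m : ℕ, ((sth (dcn P N e) w)^[m] ((0, true), fun _ => 0)).1 ∈
        {q : Fin 5 × Bool | q.1 = 3} := by
    intro hc'
    obtain ⟨m, hm⟩ := hall
    refine ⟨m, ?_⟩
    rw [hm]
    exact hc'
  have rej : c.1.1 = 4 →
      ¬ ∃ m : ℕ, ((sth (dcn P N e) w)^[m] ((0, true), fun _ => 0)).1 ∈
        {q : Fin 5 × Bool | q.1 = 3} := by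
    rintro hc' ⟨m, hm⟩
    obtain ⟨k, hk⟩ := hall
    have fix : ∀ (d : (Fin 5 × Bool) × (Fin 3 → ℕ)), d.1.1 = 3 ∨ d.1.1 = 4 → ∀ j,
        (sth (dcn P N e) w)^[j] d = d := by
      intro d hd j
      induction j with
      | zero => rfl
      | succ j ih => rw [Function.iterate_succ_apply', ih, stay3 P N e w d hd]
    have hm' : ((sth (dcn P N e) w)^[m] ((0, true), fun _ => 0)).1.1 = 3 := hm
    rcases le_total k m with h | h
    · obtain ⟨j, rfl⟩ := Nat.exists_eq_add_of_le h
      rw [Nat.add_comm, Function.iterate_add_apply, hk, fix c (Or.inr hc')] at hm'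
      rw [hc'] at hm'
      exact absurd hm' (by decide)
    · obtain ⟨j, rfl⟩ := Nat.exists_eq_add_of_le h
      rw [Nat.add_comm, Function.iterate_add_apply, fix _ (Or.inl hm')] at hk
      rw [hk, hc'] at hm'
      exact absurd hm' (by decide)
  rcases hcc with ⟨h, h'⟩ | ⟨h, h'⟩
  · exact ⟨fun _ => acc h', fun _ => h⟩
  · exact ⟨fun h3 => absurd h3 (not_le.2 h), fun h3 => absurd h3 (rej h')⟩

end Pool.Agent.Helper28.RN
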